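import Pool.Agent.H26.AV3C.Com

/-!
# Board av3c, module LSP: local solubility
-/

set_option autoImplicit false

namespace Pool.Agent.H26.AV3C

open Polynomial Matrix Pool.AVR Pool.AV3

/-- Every prime of `F[t]` is generated by a monic irreducible polynomial. -/
theorem exists_monic {F : Type} [Field F] (v : IsDedekindDomain.HeightOneSpectrum F[X]) :
    ∃ P : F[X], P.Monic ∧ Irreducible P ∧ v.asIdeal = Ideal.span {P} := by
  obtain ⟨g, hg⟩ := (IsPrincipalIdealRing.principal v.asIdeal).principal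
  have hg' : v.asIdeal = Ideal.span {g} := hg
  have hg0 : g ≠ 0 := by
    rintro rfl
    apply v.ne_bot
    rw [hg']
    simp
  have hm := monic_mul_leadingCoeff_inv hg0
  have hu : IsUnit (C g.leadingCoeff⁻¹) :=
    isUnit_C.2 (isUnit_iff_ne_zero.2 (inv_ne_zero (leadingCoeff_ne_zero.2 hg0)))
  have hs : Ideal.span {g * C g.leadingCoeff⁻¹} = Ideal.span {g} :=
    Ideal.span_singleton_mul_right_unit hu g
  refine ⟨g * C g.leadingCoeff⁻¹, hm, ?_, by rw [hs, hg']⟩
  have hp : (Ideal.span {g * C g.leadingCoeff⁻¹}).IsPrime := by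
    rw [hs, ← hg']
    exact v.isPrime
  exact ((Ideal.span_singleton_prime hm.ne_zero).1 hp).irreducible

theorem good_of_tsub {K : Type} [Field K] (c : Fin 10 → K) (g : Matrix (Fin 3) (Fin 3) K)
    (r : K) (hr : r ≠ 0) (v : Fin 3 → K) (h : Good (r • tsub c g) v) : Good c (g *ᵥ v) := by
  obtain ⟨h1, ⟨w, h2⟩, w', h3, h4⟩ := h
  rw [tev_smul_form, tev_tsub] at h1 h4
  rw [tder_smul_form, tder_tsub] at h2 h3
  exact ⟨(mul_eq_zero.1 h1).resolve_left hr, ⟨g *ᵥ w, right_ne_zero_of_mul h2⟩, g *ᵥ w',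
    (mul_eq_zero.1 h3).resolve_left hr, right_ne_zero_of_mul h4⟩

theorem exists_good {R : Type} [CommRing R] {c : Fin 10 → R} (h : gdk c ≠ 0) :
    ∃ v, Good c v := Set.nonempty_of_ncard_ne_zero h

/-- Lifting residues at infinity to constants. -/
theorem lift_X {F : Type} [Field F] (z : Fin 3 → AdjoinRoot (X : F[X])) :
    ∃ a : Fin 3 → F, z = fun i => AdjoinRoot.mk X (C (a i)) := by
  have h1 : ∀ i, ∃ a : F, z i = AdjoinRoot.mk X (C a) := by
    intro i
    obtain ⟨p, hp⟩ := AdjoinRoot.mk_surjective (z i)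
    refine ⟨p.coeff 0, ?_⟩
    rw [← hp, AdjoinRoot.mk_eq_mk]
    exact X_dvd_sub_C
  choose a ha using h1
  exact ⟨a, funext ha⟩

theorem lsp_thm (hLSG : LSGStmt) (hHNS3 : HNS3Stmt) (hSOL3 : SOL3Stmt) (hRDG : RDGStmt)
    (hTRB3 : TRB3Stmt) (hVDI : VDIStmt) (hCPP : AVS.CPPStmt) (hCPI : AVS.CPIStmt) :
    LSPStmt := by
  classical
  intro F _ _ h2 n α β S f hf hS hS' c hc hgS hgi
  obtain ⟨hcV, p, hJ⟩ := hc
  have hd : dsc f ≠ 0 := hf.1.2
  refine ⟨?_, ?_⟩
  · intro v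
    obtain ⟨P, hPm, hPi, hv⟩ := exists_monic v
    have hι := hCPP F h2 P hPm hPi v hv
    have hz : ∃ z, Good (md P c) z := by
      by_cases hPS : P ∈ S
      · exact exists_good (hgS P hPS)
      · obtain ⟨h3, h4⟩ := hS' P hPm hPi hPS
        refine hLSG F h2 P hPm hPi h3 c ?_
        rw [hJ, dsc_sh]
        exact h4
    obtain ⟨z, hz⟩ := hz
    have hz' : ∀ i, ∃ q : F[X], AdjoinRoot.mk P q = z i := fun i =>
      AdjoinRoot.mk_surjective (z i)
    choose y hy using hz'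
    have hy' : (fun i => AdjoinRoot.mk P (y i)) = z := funext hy
    rw [← hy'] at hz
    obtain ⟨x, hx⟩ := good_comp hHNS3 hTRB3 hι (mp c)
      (fun i => (hVDI F n (dv α β) c).2.2 P hPi i) (pv y) (hRDG.1 F P hPm hPi c y hz)
    exact cls_of_good hSOL3 _ h2 f hd c p hJ x hx
  · have hι := hCPI F h2
    obtain ⟨z, hz⟩ := exists_good hgi
    obtain ⟨a, rfl⟩ := lift_X z
    obtain ⟨hV1, hV2, -⟩ := hVDI F n (dv α β) c
    obtain ⟨x, hx⟩ := good_comp hHNS3 hTRB3 hι (cI n (dv α β) c) (hV1.1 hcV) _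
      (hRDG.2 F n (dv α β) c hcV a hz)
    refine cls_of_good hSOL3 _ h2 f hd c p hJ
      (((Dg (dv α β))⁻¹ : Matrix (Fin 3) (Fin 3) (RatFunc F)).map (algebraMap (RatFunc F)
        (RatFunc.CompletionAtInfty F)) *ᵥ x) ?_
    have hX : ((RatFunc.X : RatFunc F) ^ n)⁻¹ ≠ 0 :=
      inv_ne_zero (pow_ne_zero _ RatFunc.X_ne_zero)
    have hD : ((Dg (dv α β))⁻¹ : Matrix (Fin 3) (Fin 3) (RatFunc F)).det ≠ 0 := by
      rw [Matrix.det_nonsing_inv, Ring.inverse_eq_inv']
      apply inv_ne_zero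
      rw [Dg, Matrix.det_diagonal]
      exact Finset.prod_ne_zero_iff.2 fun i _ => zpow_ne_zero _ RatFunc.X_ne_zero
    apply good_of_tsub _ _ ((algebraMap (RatFunc F) (RatFunc.CompletionAtInfty F))
      (((RatFunc.X : RatFunc F) ^ n)⁻¹ /
        ((Dg (dv α β))⁻¹ : Matrix (Fin 3) (Fin 3) (RatFunc F)).det))
      ((_root_.map_ne_zero _).2 (div_ne_zero hX hD))
    rw [← map_tsub]
    have h5 : (fun i => (algebraMap (RatFunc F) (RatFunc.CompletionAtInfty F))
        (cI n (dv α β) c i)) =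
        (algebraMap (RatFunc F) (RatFunc.CompletionAtInfty F))
      (((RatFunc.X : RatFunc F) ^ n)⁻¹ /
        ((Dg (dv α β))⁻¹ : Matrix (Fin 3) (Fin 3) (RatFunc F)).det) • fun i =>
          (algebraMap (RatFunc F) (RatFunc.CompletionAtInfty F))
            (tsub (mp c) (Dg (dv α β))⁻¹ i) := by
      funext i
      rw [← hV2 i, tsub_smul_form, Pi.smul_apply, Pi.smul_apply, smul_eq_mul, smul_eq_mul,
        ← map_mul]
      congr 1
      ring
    rw [← h5]
    exact hx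

end Pool.Agent.H26.AV3C
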