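import Pool.Agent.H26.AV3C.Com
import Pool.Agent.H17.AV3.LOP
import Pool.Agent.H91.AVS.Places

/-!
# Board av3c, module MDL: the number of good points for discriminants of valuation at most one
-/

set_option autoImplicit false

namespace Pool.Agent.H26.AV3C

open Polynomial Matrix Pool.AVR Pool.AV3 Pool.AVS.WUW

/-- A finite set of nonzero vectors contains a set of pairwise non-proportional vectors which
represents all of them. -/
theorem exists_reps {k : Type} [Field k] [Finite k] (G : Set (Fin 3 → k)) (h0 : ∀ v ∈ G, v ≠ 0) :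
    ∃ R : Finset (Fin 3 → k), (∀ v ∈ R, v ∈ G) ∧
      (∀ v ∈ R, ∀ w ∈ R, v ≠ w → ∀ t : k, w ≠ t • v) ∧
      (G.ncard : ℝ) ≤ ((Nat.card k : ℝ) - 1) * R.card := by
  classical
  have : Fintype k := Fintype.ofFinite k
  -- the proportionality classes
  let s : Setoid G :=
    { r := fun v w => ∃ t : k, t ≠ 0 ∧ (w : Fin 3 → k) = t • (v : Fin 3 → k)
      iseqv := ⟨fun v => ⟨1, one_ne_zero, (one_smul _ _).symm⟩,
        fun {v w} ⟨t, ht, h⟩ => ⟨t⁻¹, inv_ne_zero ht, by rw [h, smul_smul, inv_mul_cancel₀ ht,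
          one_smul]⟩,
        fun {u v w} ⟨t, ht, h⟩ ⟨t', ht', h'⟩ => ⟨t' * t, mul_ne_zero ht' ht, by
          rw [h', h, smul_smul]⟩⟩ }
  have : Fintype (Quotient s) := Fintype.ofFinite _
  have : Fintype G := Fintype.ofFinite _
  refine ⟨Finset.univ.image fun q : Quotient s => ((q.out : G) : Fin 3 → k), ?_, ?_, ?_⟩
  · intro v hv
    obtain ⟨q, -, rfl⟩ := Finset.mem_image.1 hv
    exact q.out.2
  · intro v hv w hw hvw t htw
    obtain ⟨q, -, rfl⟩ := Finset.mem_image.1 hv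
    obtain ⟨q', -, rfl⟩ := Finset.mem_image.1 hw
    apply hvw
    have ht : t ≠ 0 := by
      rintro rfl
      exact h0 _ q'.out.2 (by rw [htw, zero_smul])
    have h1 : q = q' := by
      rw [← Quotient.out_eq q, ← Quotient.out_eq q']
      exact Quotient.sound ⟨t, ht, htw⟩
    rw [h1]
  · have h1 : (Finset.univ.image fun q : Quotient s => ((q.out : G) : Fin 3 → k)).card =
        Fintype.card (Quotient s) := by
      rw [Finset.card_image_of_injective, Finset.card_univ]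
      intro q q' h
      have h2 : (q.out : G) = q'.out := Subtype.ext h
      rw [← Quotient.out_eq q, ← Quotient.out_eq q', h2]
    have h2 : G.ncard ≤ Fintype.card kˣ * Fintype.card (Quotient s) := by
      rw [← Nat.card_coe_set_eq, Nat.card_eq_fintype_card, ← Fintype.card_prod]
      have h3 : ∀ v : G, ∃ p : kˣ × Quotient s, (v : Fin 3 → k) = (p.1 : k) • ((p.2.out : G) :
          Fin 3 → k) := by
        intro v
        obtain ⟨t, ht, h⟩ := Quotient.exact (Quotient.out_eq (Quotient.mk s v))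
        exact ⟨(Units.mk0 t ht, Quotient.mk s v), h⟩
      choose e he using h3
      refine Fintype.card_le_of_injective e ?_
      intro v w h
      exact Subtype.ext (by rw [he v, he w, h])
    rw [h1, Nat.card_eq_fintype_card]
    have h4 : (Fintype.card kˣ : ℝ) = (Fintype.card k : ℝ) - 1 := by
      rw [Fintype.card_units, Nat.cast_sub Fintype.card_pos, Nat.cast_one]
    rw [← h4]
    exact_mod_cast h2

theorem mdl_thm (hLLG3 : LLG3Stmt) (hHNS3 : HNS3Stmt) (hSOL3 : SOL3Stmt) (hRDG : RDGStmt)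
    (hTRB3 : TRB3Stmt) (hCPP : AVS.CPPStmt) (hRIP : AVS.RIPStmt) : MDLStmt := by
  classical
  intro F _ _ h2 P hPm hPi c hd
  have : Fact (Irreducible P) := ⟨hPi⟩
  have hfin : Module.Finite F (AdjoinRoot P) := hPm.finite_adjoinRoot
  have : Finite (AdjoinRoot P) := Module.finite_of_finite F
  have hκ : 0 < Nat.card (AdjoinRoot P) := Nat.card_pos
  have hκ1 : (0 : ℝ) ≤ (Nat.card (AdjoinRoot P) : ℝ) - 1 := by
    have : (1 : ℝ) ≤ (Nat.card (AdjoinRoot P) : ℝ) := by exact_mod_cast hκ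
    linarith
  have hpl := plcP P
  have hmemP : ∀ p : F[X], algebraMap F[X] (RatFunc F) p ∈ AVS.IP P := by
    intro p h
    rw [RatFunc.denom_algebraMap] at h
    exact hPi.not_isUnit (isUnit_of_dvd_one h)
  have h0 : ∀ v ∈ {v | Good (md P c) v}, v ≠ 0 := by
    rintro v ⟨-, ⟨w, hw⟩, -⟩ rfl
    apply hw
    simp only [tder, Pi.zero_apply]
    ring
  obtain ⟨R, hR1, hR2, hR3⟩ := exists_reps {v | Good (md P c) v} h0
  refine hR3.trans ?_
  unfold Bw
  apply mul_le_mul_of_nonneg_left _ hκ1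
  rcases R.eq_empty_or_nonempty with hRe | ⟨v₀, hv₀⟩
  · rw [hRe]
    simp only [Finset.card_empty, Nat.cast_zero]
    positivity
  obtain ⟨v, hv⟩ : ∃ v : IsDedekindDomain.HeightOneSpectrum F[X], v.asIdeal = Ideal.span {P} :=
    ⟨⟨Ideal.span {P}, (Ideal.span_singleton_prime hPi.ne_zero).mpr hPi.prime, by
      simp [hPi.ne_zero]⟩, rfl⟩
  have hι := hCPP F h2 P hPm hPi v hv
  obtain ⟨L, _, O, ι, hι⟩ : ∃ (L : Type) (_ : Field L) (O : ValuationSubring L)
      (ι : RatFunc F →+* L), AVS.IsComp F (AVS.IP P) (algebraMap F[X] (RatFunc F) P) L O ι :=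
    ⟨_, _, _, _, hι⟩
  have hmem : ∀ p : F[X], ι (algebraMap F[X] (RatFunc F) p) ∈ O := by
    intro p
    rw [hι.mem]
    exact hmemP p
  obtain ⟨hk1, hk2, hk3⟩ := hRIP F P hPm hPi L O ι hι
  obtain ⟨e, he⟩ := hk3 2
  -- lift the representatives
  have hlift : ∀ v : Fin 3 → AdjoinRoot P, ∃ y : Fin 3 → F[X],
      (fun i => AdjoinRoot.mk P (y i)) = v := by
    intro v
    have hz' : ∀ i, ∃ q : F[X], AdjoinRoot.mk P q = v i := fun i =>
      AdjoinRoot.mk_surjective (v i)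
    choose y hy using hz'
    exact ⟨y, funext hy⟩
  choose y hy using hlift
  have hgd : ∀ w ∈ R, GdI (AVS.IP P) (algebraMap F[X] (RatFunc F) P) (mp c) (pv (y w)) := by
    intro w hw
    apply hRDG.1 F P hPm hPi c
    rw [hy w]
    exact hR1 w hw
  -- the Jacobian
  obtain ⟨f, hf⟩ : ∃ f, f = Jc (hf F) c := ⟨_, rfl⟩
  rw [← hf] at hd ⊢
  set a : O := ⟨ι (algebraMap F[X] (RatFunc F) f.1), hmem f.1⟩ with hadef
  set b : O := ⟨ι (algebraMap F[X] (RatFunc F) f.2.1), hmem f.2.1⟩ with hbdef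
  set c' : O := ⟨ι (algebraMap F[X] (RatFunc F) f.2.2), hmem f.2.2⟩ with hcdef
  have hdisc : disc a b c' ∉ (IsLocalRing.maximalIdeal O) ^ 2 := by
    intro h1
    have h2 : Ideal.Quotient.mk ((IsLocalRing.maximalIdeal O) ^ 2) (disc a b c') = 0 :=
      Ideal.Quotient.eq_zero_iff_mem.2 h1
    have h3 := congrArg e h2
    rw [map_zero, disc_map, ← RingEquiv.coe_toRingHom, disc_map] at h3
    rw [RingEquiv.coe_toRingHom, he, he, he, ← disc_map, AdjoinRoot.mk_eq_zero] at h3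
    exact hd h3
  have hd0 : dsc f ≠ 0 := fun h => hd (by rw [h]; exact dvd_zero _)
  have hcls : Cls ((a : L), (b : L), (c' : L)) (fun i => ι (mp c i)) := by
    obtain ⟨x, hx⟩ := good_comp hHNS3 hTRB3 hι (mp c) (fun i => hmemP (c i)) _ (hgd v₀ hv₀)
    exact cls_of_good hSOL3 ι h2 f hd0 c 0 (by rw [← hf, sh_zero]) x hx
  have hKP : ∀ w ∈ R, KP3 (AVS.IP P) (algebraMap F[X] (RatFunc F) P) (mp c) 1 (pv (y w)) := by
    intro w hw
    have h1 : (fun i => tsub (mp c) 1 i / (1 : Matrix (Fin 3) (Fin 3) (RatFunc F)).det) =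
        mp c := by
      funext i
      rw [tsub_one, det_one, div_one]
    refine ⟨by simp, ?_, ?_⟩
    · intro i
      have h2 := congrFun h1 i
      show tsub (mp c) 1 i / (1 : Matrix (Fin 3) (Fin 3) (RatFunc F)).det ∈ _
      rw [show tsub (mp c) 1 i / (1 : Matrix (Fin 3) (Fin 3) (RatFunc F)).det = mp c i from h2]
      exact hmemP (c i)
    · rw [h1]
      exact hgd w hw
  have hne : ∀ w ∈ R, ∀ w' ∈ R, w ≠ w' → ¬ Eq3 (AVS.IP P) (algebraMap F[X] (RatFunc F) P)
      1 (pv (y w)) 1 (pv (y w')) := by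
    rintro w hw w' hw' hww ⟨κ, r, hκG, hr, hκr, t, ht, hcong⟩
    have hκe : κ = r⁻¹ • (1 : Matrix (Fin 3) (Fin 3) (RatFunc F)) := by
      rw [hκr, one_mul, smul_smul, inv_mul_cancel₀ hr, one_smul]
    have hri : r⁻¹ ∈ AVS.IP P := by
      have h1 := hκG.1 0 0
      rw [hκe] at h1
      simpa using h1
    have hrr : r ∈ AVS.IP P := by
      have h1 := hκG.2.2.2
      rw [hκe, det_smul, det_one, mul_one, Fintype.card_fin] at h1
      have h3 : r = (r⁻¹ * r⁻¹) * (r⁻¹ ^ 3)⁻¹ := by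
        field_simp
      rw [h3]
      exact hpl.mul_mem _ (hpl.mul_mem _ hri _ hri) _ h1
    have hρ : rP P r⁻¹ * rP P r = 1 := by
      rw [← hpl.map_mul _ hri _ hrr, inv_mul_cancel₀ hr, hpl.map_one]
    apply hR2 w hw w' hw' hww (rP P r * rP P t)
    funext i
    have h1 := hcong i
    have hmv : (κ *ᵥ pv (y w')) i = r⁻¹ * algebraMap F[X] (RatFunc F) (y w' i) := by
      rw [hκe, Matrix.smul_mulVec, one_mulVec]
      rfl
    rw [hmv] at h1
    have hm1 : r⁻¹ * algebraMap F[X] (RatFunc F) (y w' i) ∈ AVS.IP P :=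
      hpl.mul_mem _ hri _ (hmemP _)
    have hm2 : t * pv (y w) i ∈ AVS.IP P := hpl.mul_mem _ ht.2.1 _ (hmemP _)
    have h3 := (hpl.ker _ (hpl.sub_mem hm1 hm2)).2 h1
    have hmw : pv (y w) i ∈ AVS.IP P := hmemP _
    rw [hpl.map_sub hm1 hm2, hpl.map_mul _ hri _ (hmemP _), hpl.map_mul _ ht.2.1 _ hmw] at h3
    have h4 : rP P (algebraMap F[X] (RatFunc F) (y w' i)) = w' i := by
      rw [rP_poly]
      exact congrFun (hy w') i
    have h5 : rP P (pv (y w) i) = w i := by
      have : pv (y w) i = algebraMap F[X] (RatFunc F) (y w i) := rfl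
      rw [this, rP_poly]
      exact congrFun (hy w) i
    rw [h4, h5] at h3
    rw [Pi.smul_apply, smul_eq_mul]
    linear_combination (rP P r) * h3 - w' i * hρ
  -- count
  let E := R.equivFin
  have hmain := hLLG3 F (AVS.IP P) _ L O ι hι 2 a b c' hdisc (mp c) hcls R.card (fun _ => 1)
    (fun j => pv (y ((E.symm j : R) : Fin 3 → AdjoinRoot P)))
    (fun j => hKP _ (E.symm j).2)
    (fun i j hij => hne _ (E.symm i).2 _ (E.symm j).2 fun h =>
      hij (E.symm.injective (Subtype.ext h)))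
  rw [hk1, ← hk2, ← LOP.nE_equiv e, he, he, he] at hmain
  have hcard : Nat.card (AdjoinRoot (P ^ 2)) = Nat.card (AdjoinRoot P) *
      Nat.card (AdjoinRoot P) := by
    rw [LOP.card_adj (hPm.pow 2), LOP.card_adj hPm, hPm.natDegree_pow, ← pow_add]
    congr 1
    ring
  have hle : (R.card : ℝ) * (Nat.card (AdjoinRoot P) : ℝ) ≤
      (nET (md3 (P ^ 2) f) : ℝ) + (Nat.card (AdjoinRoot P) : ℝ) := by
    have : R.card * Nat.card (AdjoinRoot P) ^ (2 - 1) ≤
      nET (md3 (P ^ 2) f) + Nat.card (AdjoinRoot P) ^ (2 - 1) := hmain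
    rw [Nat.add_one_sub_one, pow_one] at this
    exact_mod_cast this
  have hk : (0 : ℝ) < (Nat.card (AdjoinRoot P) : ℝ) := by exact_mod_cast hκ
  rw [hcard]
  push_cast
  rw [mul_div_mul_left _ _ hk.ne']
  have h5 : (R.card : ℝ) ≤
      ((nET (md3 (P ^ 2) f) : ℝ) + (Nat.card (AdjoinRoot P) : ℝ)) /
        (Nat.card (AdjoinRoot P) : ℝ) := by
    rw [le_div_iff₀ hk]
    exact hle
  rw [add_div, div_self hk.ne'] at h5
  exact h5

end Pool.Agent.H26.AV3C
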