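import Pool.Agent.H8.AV3.Stmts7

/-!
# Board av3c: common lemmas for LSP and MDL
-/

set_option autoImplicit false

namespace Pool.Agent.H26.AV3C

open Polynomial Matrix Pool.AVR Pool.AV3

theorem Jc_map {R S : Type} [CommRing R] [CommRing S] (φ : R →+* S) (τ : R) (c : Fin 10 → R) :
    Jc (φ τ) (fun i => φ (c i)) =
      (φ (Jc τ c).1, φ (Jc τ c).2.1, φ (Jc τ c).2.2) := by
  simp only [Jc, jb4, jb6, map_add, map_sub, map_mul, map_pow, map_neg, map_ofNat]

theorem disc_map {R S : Type} [CommRing R] [CommRing S] (φ : R →+* S) (a b c : R) :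
    φ (disc a b c) = disc (φ a) (φ b) (φ c) := by
  simp only [disc, map_sub, map_add, map_mul, map_pow, map_ofNat]

theorem sh_map {R S : Type} [CommRing R] [CommRing S] (φ : R →+* S) (η : R) (f : R × R × R) :
    (φ (sh η f).1, φ (sh η f).2.1, φ (sh η f).2.2) = sh (φ η) (φ f.1, φ f.2.1, φ f.2.2) := by
  simp only [sh, map_add, map_mul, map_pow, map_ofNat]

theorem two_ne {F L : Type} [Field F] [Field L] (ι : RatFunc F →+* L) (h2 : (2 : F) ≠ 0) :
    (2 : L) ≠ 0 := by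
  have h3 := (map_ne_zero (ι.comp (algebraMap F (RatFunc F)))).2 h2
  rwa [map_ofNat] at h3

theorem hf_map {F L : Type} [Field F] [Field L] (ι : RatFunc F →+* L) :
    ι (algebraMap F[X] (RatFunc F) (hf F)) = (2 : L)⁻¹ := by
  have h1 : ι (algebraMap F[X] (RatFunc F) (hf F)) =
      (ι.comp ((algebraMap F[X] (RatFunc F)).comp C)) ((2 : F)⁻¹) := rfl
  rw [h1, map_inv₀, map_ofNat]

/-- Good points over the completion. -/
theorem good_comp (hHNS3 : HNS3Stmt) (hTRB3 : TRB3Stmt) {F : Type} [Field F]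
    {I : Set (RatFunc F)} {ϖ : RatFunc F} {L : Type} [Field L] {O : ValuationSubring L}
    {ι : RatFunc F →+* L} (hι : AVS.IsComp F I ϖ L O ι) (c : Fin 10 → RatFunc F)
    (hc : ∀ i, c i ∈ I) (v : Fin 3 → RatFunc F) (hg : GdI I ϖ c v) :
    ∃ x : Fin 3 → L, Good (fun i => ι (c i)) x := by
  obtain ⟨x, -, -, -, hx, -⟩ := hHNS3 L O (ι ϖ) hι.loc (fun i => ι (c i)) (fun i => ι (v i))
    (fun i => (hι.mem _).2 (hc i)) ((hTRB3 F I ϖ L O ι hι).1 c v hg) ∅ Set.finite_empty
  exact ⟨x, hx⟩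

/-- A form with a good point over the completion is the form of a local point. -/
theorem cls_of_good (hSOL3 : SOL3Stmt) {F L : Type} [Field F] [Field L] (ι : RatFunc F →+* L)
    (h2 : (2 : F) ≠ 0) (f : F[X] × F[X] × F[X]) (hd : dsc f ≠ 0) (c : Fin 10 → F[X]) (p : F[X])
    (hJ : Jc (hf F) c = sh p f) (x : Fin 3 → L) (hx : Good (fun i => ι (mp c i)) x) :
    Cls (k3 ι f) (fun i => ι (mp c i)) := by
  have hk : k3 ι f = ((ι.comp (algebraMap F[X] (RatFunc F))) f.1,
      (ι.comp (algebraMap F[X] (RatFunc F))) f.2.1,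
      (ι.comp (algebraMap F[X] (RatFunc F))) f.2.2) := rfl
  refine hSOL3 L (two_ne ι h2) (k3 ι f) _ x (ι (algebraMap F[X] (RatFunc F) p)) ?_ ?_ hx
  · rw [hk]
    show disc _ _ _ ≠ 0
    rw [← disc_map]
    exact (map_ne_zero_iff (ι.comp (algebraMap F[X] (RatFunc F)))
      (ι.injective.comp (RatFunc.algebraMap_injective F))).2 hd
  · have h1 := Jc_map (ι.comp (algebraMap F[X] (RatFunc F))) (hf F) c
    rw [hJ, sh_map] at h1
    rw [← hf_map ι]
    exact h1

end Pool.Agent.H26.AV3C
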